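import Pool.Agent.CPT.StmtsA

/-!
# Squad CPT, row SIZ: the size of the points
-/

set_option autoImplicit false

namespace Pool.Agent.CPT.H26

open Pool.Agent.CPT

theorem siz_aux (n s r t i : ℕ) (c : Fin r → ℕ) (ht : t ≤ n * r ^ 2) (hi : i ≤ n)
    (hc : ∏ j, max 1 (c j) ≤ 8 ^ s) :
    (pt ℤ r t c i).natAbs ≤ 2 ^ (r + n * r * (n + 2 * r) + 3 * s) := by
  -- size of the parameter `t`
  have hn : n ≤ 2 ^ n := (Nat.lt_two_pow_self).le
  have hr2 : r ≤ 2 ^ r := (Nat.lt_two_pow_self).le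
  have ht2 : t ≤ 2 ^ (n + 2 * r) := by
    calc t ≤ n * r ^ 2 := ht
      _ ≤ 2 ^ n * (2 ^ r) ^ 2 := Nat.mul_le_mul hn (Nat.pow_le_pow_left hr2 2)
      _ = 2 ^ (n + 2 * r) := by rw [← pow_mul, ← pow_add]; ring_nf
  have hcj : ∀ j, c j ≤ 2 ^ (3 * s) := by
    intro j
    have h1 : max 1 (c j) ∣ ∏ j, max 1 (c j) := Finset.dvd_prod_of_mem _ (Finset.mem_univ j)
    have h2 : 0 < ∏ j, max 1 (c j) :=
      Finset.prod_pos (fun j _ => lt_of_lt_of_le Nat.one_pos (le_max_left 1 (c j)))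
    have h3 : max 1 (c j) ≤ ∏ j, max 1 (c j) := Nat.le_of_dvd h2 h1
    have h4 : (2 : ℕ) ^ (3 * s) = 8 ^ s := by rw [pow_mul]; norm_num
    rw [h4]
    exact (le_max_right 1 (c j)).trans (h3.trans hc)
  have hterm : ∀ j : Fin r, t ^ (i * ((j : ℕ) + 1)) * c j ≤ 2 ^ (n * r * (n + 2 * r)) * 2 ^ (3 * s) := by
    intro j
    refine Nat.mul_le_mul ?_ (hcj j)
    calc t ^ (i * ((j : ℕ) + 1)) ≤ (2 ^ (n + 2 * r)) ^ (i * ((j : ℕ) + 1)) := Nat.pow_le_pow_left ht2 _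
      _ ≤ (2 ^ (n + 2 * r)) ^ (n * r) :=
        Nat.pow_le_pow_right (Nat.pos_of_ne_zero (by positivity))
          (Nat.mul_le_mul hi (Nat.succ_le_of_lt j.isLt))
      _ = 2 ^ (n * r * (n + 2 * r)) := by rw [← pow_mul, Nat.mul_comm (n + 2 * r)]
  have hpt : pt ℤ r t c i = ((∑ j : Fin r, t ^ (i * ((j : ℕ) + 1)) * c j : ℕ) : ℤ) := by
    unfold pt
    push_cast
    rfl
  rw [hpt, Int.natAbs_natCast]
  calc ∑ j : Fin r, t ^ (i * ((j : ℕ) + 1)) * c j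
      ≤ ∑ _j : Fin r, 2 ^ (n * r * (n + 2 * r)) * 2 ^ (3 * s) :=
        Finset.sum_le_sum (fun j _ => hterm j)
    _ = r * (2 ^ (n * r * (n + 2 * r)) * 2 ^ (3 * s)) := by
        rw [Finset.sum_const, Finset.card_univ, Fintype.card_fin, smul_eq_mul]
    _ ≤ 2 ^ r * (2 ^ (n * r * (n + 2 * r)) * 2 ^ (3 * s)) := Nat.mul_le_mul_right _ hr2
    _ = 2 ^ (r + n * r * (n + 2 * r) + 3 * s) := by
        rw [← pow_add, ← pow_add]
        congr 1
        ring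

theorem siz : SizStmt := by
  intro n s t i c ht hi hc
  exact siz_aux n s (2 * s + 1) t i c ht hi hc

end Pool.Agent.CPT.H26
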